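import Pool.Agent.H164R2.Strong
import Pool.Agent.Results.MP_e720fa_co.ColourableComplement

set_option autoImplicit false
set_option linter.unusedSectionVars false

open Finset Matrix

namespace Pool.Agent.H164R2

open Pool.Agent.Helper347.Sab
open Pool.Agent.Helper998.Near (Rch join mem_decomp rch_symm)

variable {V E : Type} [Fintype V] [DecidableEq V] [Fintype E] [DecidableEq E]

/-- chains of edges outside S through vertices off S -/
abbrev SB (G : MGraph V E) (S : Finset E) : E → E → Prop :=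
  Relation.ReflTransGen (fun a b => b ∉ S ∧ ∃ v, v ∈ G.ends a ∧ v ∈ G.ends b ∧ dg G S v = 0)

/-- edge version of the main theorem -/
theorem strong_edges (G : MGraph V E) (H S : Finset E) (hSH : S ⊆ H)
    (hH : ∀ v, dg G H v ≤ 3) (hS : ∀ v, dg G S v = 0 ∨ dg G S v = 2)
    (hoff : ∀ f, f ∉ H → ∀ v ∈ G.ends f, dg G S v ≠ 0)
    (h : ∀ e ∈ H, e ∉ S → ∃ A B : Finset E, Ev G A ∧ Ev G B ∧
      (∀ f ∈ A, f ∈ S ∨ SB G S e f) ∧ (∀ f ∈ B, f ∈ S ∨ SB G S e f) ∧
      ∀ f, f ∉ S → SB G S e f → f ∈ A ∨ f ∈ B) :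
    ∃ F : Multiset (Finset E), (∀ X ∈ F, IsCircuit G X) ∧
      (∀ e, F.countP (e ∈ ·) = if e ∈ H then 2 else 0) ∧
      ∀ C, IsCircuit G C → C ⊆ S → C ∈ F := by
  classical
  -- edges outside S at a vertex of S are equal
  have huniq : ∀ v, dg G S v ≠ 0 → ∀ f g, f ∈ H → f ∉ S → g ∈ H → g ∉ S → v ∈ G.ends f →
      v ∈ G.ends g → f = g := by
    intro v hv f g hf hfS hg hgS hvf hvg
    have h1 := dg_sdiff (G := G) hSH v
    have h2 := hH v
    have h3 := hS v
    have h4 : dg G (H \ S) v ≤ 1 := by omega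
    unfold dg at h4
    rw [card_le_one] at h4
    exact h4 f (mem_filter.2 ⟨mem_sdiff.2 ⟨hf, hfS⟩, hvf⟩) g
      (mem_filter.2 ⟨mem_sdiff.2 ⟨hg, hgS⟩, hvg⟩)
  -- chains starting in H \ S stay there
  have hstay : ∀ e ∈ H, e ∉ S → ∀ f, SB G S e f → f ∈ H ∧ f ∉ S := by
    intro e he heS f hf
    induction hf with
    | refl => exact ⟨he, heS⟩
    | tail h0 h1 ih =>
      rename_i b c
      obtain ⟨h2, v, h3, h4, h5⟩ := h1
      refine ⟨?_, h2⟩
      by_contra hcon
      exact hoff c hcon v h4 h5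
  -- a chain of edges gives a walk
  have hwalk : ∀ e ∈ H, e ∉ S → ∀ f, SB G S e f → ∀ v ∈ G.ends e, ∀ u ∈ G.ends f,
      Rch G (H \ S) v u := by
    intro e he heS f hf
    have hone : ∀ g ∈ H, g ∉ S → ∀ v ∈ G.ends g, ∀ u ∈ G.ends g, Rch G (H \ S) v u := by
      intro g hg hgS v hv u hu
      by_cases huv : v = u
      · rw [huv]
      · exact Relation.ReflTransGen.single ⟨g, mem_sdiff.2 ⟨hg, hgS⟩,
          (Sym2.mem_and_mem_iff huv).1 ⟨hv, hu⟩⟩
    induction hf with
    | refl => exact hone e he heS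
    | tail h0 h1 ih =>
      rename_i b c
      intro v hv u hu
      obtain ⟨h2, x, h3, h4, h5⟩ := h1
      have hc := hstay e he heS c (h0.tail ⟨h2, x, h3, h4, h5⟩)
      exact (ih v hv x h3).trans (hone c hc.1 hc.2 x h4 u hu)
  -- a walk gives a chain of edges
  have hchain : ∀ e ∈ H, e ∉ S → ∀ v ∈ G.ends e, ∀ u, Rch G (H \ S) v u → ∀ f ∈ H, f ∉ S →
      u ∈ G.ends f → SB G S e f := by
    intro e he heS v hv u hu
    induction hu with
    | refl =>
      intro f hf hfS hvf
      by_cases h1 : dg G S v = 0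
      · exact Relation.ReflTransGen.single ⟨hfS, v, hv, hvf, h1⟩
      · rw [huniq v h1 e f he heS hf hfS hv hvf]
    | tail h0 h1 ih =>
      rename_i x y
      obtain ⟨g, hg, hends⟩ := h1
      rw [mem_sdiff] at hg
      intro f hf hfS hyf
      have h2 := ih g hg.1 hg.2 (by rw [hends]; simp)
      have hyg : y ∈ G.ends g := by rw [hends]; simp
      by_cases h3 : dg G S y = 0
      · exact h2.tail ⟨hfS, y, hyg, hyf, h3⟩
      · rw [← huniq y h3 g f hg.1 hg.2 hf hfS hyg hyf]
        exact h2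
  refine strong G H S hSH hH hS fun v => ?_
  by_cases hv : ∃ e ∈ H, e ∉ S ∧ v ∈ G.ends e
  · obtain ⟨e, he, heS, hve⟩ := hv
    obtain ⟨A, B, hA, hB, hA1, hB1, hAB⟩ := h e he heS
    refine ⟨A, B, hA, hB, ?_, ?_, ?_, ?_⟩
    · intro f hf
      rcases hA1 f hf with h1 | h1
      · exact hSH h1
      · exact (hstay e he heS f h1).1
    · intro f hf
      rcases hB1 f hf with h1 | h1
      · exact hSH h1
      · exact (hstay e he heS f h1).1
    · intro f hfS hf u hu
      refine hwalk e he heS f ?_ v hve u hu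
      rcases hf with h1 | h1
      · exact (hA1 f h1).resolve_left hfS
      · exact (hB1 f h1).resolve_left hfS
    · intro f hf hfS hreach
      obtain ⟨u, _, _, hends⟩ := exists_ends G f
      have hu : u ∈ G.ends f := by rw [hends]; simp
      exact hAB f hfS (hchain e he heS v hve u (hreach u hu) f hf hfS hu)
  · -- isolated vertex of the complement
    have hiso : ∀ u, Rch G (H \ S) v u → u = v := by
      intro u hu
      induction hu with
      | refl => rfl
      | tail h0 h1 ih =>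
        rename_i x y
        exfalso
        apply hv
        obtain ⟨g, hg, hends⟩ := h1
        rw [mem_sdiff] at hg
        exact ⟨g, hg.1, hg.2, by rw [hends, ih]; simp⟩
    refine ⟨∅, ∅, ?_, ?_, empty_subset _, empty_subset _, ?_, ?_⟩
    · intro u; simp [dg]
    · intro u; simp [dg]
    · rintro f _ (h1 | h1) <;> simp at h1
    · intro f hf hfS hreach
      exfalso
      obtain ⟨u, _, _, hends⟩ := exists_ends G f
      have hu : u ∈ G.ends f := by rw [hends]; simp
      apply hv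
      exact ⟨f, hf, hfS, by rw [← hiso u (hreach u hu)]; exact hu⟩

/-- For a single circuit C a nowhere-zero 4-flow of G/E(C) gives one on every bridge. -/
theorem bridge_flow (G : MGraph V E) (C : Finset E) (hC : IsCircuit G C) (A : Finset E)
    (hA : ∀ v, Even (dg G A v)) (e : E) :
    ∃ A' : Finset E, Ev G A' ∧ (∀ f ∈ A', f ∈ C ∨ SB G C e f) ∧
      ∀ f, f ∉ C → SB G C e f → f ∈ A → f ∈ A' := by
  classical
  obtain ⟨M, hM⟩ : ∃ M : Finset E, ∀ f, f ∈ M ↔ f ∈ A ∧ f ∉ C ∧ SB G C e f :=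
    ⟨univ.filter fun f => f ∈ A ∧ f ∉ C ∧ SB G C e f, fun f => by simp⟩
  have hdis : Disjoint C M := by
    rw [disjoint_left]
    intro f h1 h2
    exact ((hM f).1 h2).2.1 h1
  obtain ⟨J, hJ, hEv⟩ := Pool.Agent.Results.MP_e720fa_co.ColourableComplement.circ_complete
    G C M hC hdis (by
    intro v hv
    have hnC : ∀ f, v ∈ G.ends f → f ∉ C := by
      intro f hf h1
      have := dg_pos_of_mem (G := G) h1 hf
      omega
    by_cases h1 : ∃ g, v ∈ G.ends g ∧ SB G C e g
    · obtain ⟨g, hg, hsb⟩ := h1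
      have h2 : (M.filter fun f => v ∈ G.ends f) = A.filter fun f => v ∈ G.ends f := by
        ext f
        rw [mem_filter, mem_filter, hM]
        constructor
        · rintro ⟨h3, h4⟩
          exact ⟨h3.1, h4⟩
        · rintro ⟨h3, h4⟩
          exact ⟨⟨h3, hnC f h4, hsb.tail ⟨hnC f h4, v, hg, h4, hv⟩⟩, h4⟩
      unfold dg
      rw [h2]
      exact hA v
    · have h2 : (M.filter fun f => v ∈ G.ends f) = ∅ := by
        rw [filter_eq_empty_iff]
        intro f hf hvf
        exact h1 ⟨f, hvf, ((hM f).1 hf).2.2⟩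
      unfold dg
      rw [h2]
      simp)
  refine ⟨M ∪ J, hEv, ?_, ?_⟩
  · intro f hf
    rw [mem_union] at hf
    rcases hf with h1 | h1
    · exact Or.inr ((hM f).1 h1).2.2
    · exact Or.inl (hJ h1)
  · intro f hfC hsb hfA
    exact mem_union_left _ ((hM f).2 ⟨hfA, hfC, hsb⟩)

/-- Circuits C such that G/E(C) has a nowhere-zero 4-flow lie in a circuit double cover. -/
theorem strong_circuit (G : MGraph V E) (hG : IsCubic G) (C : Finset E) (hC : IsCircuit G C)
    (A B : Finset E) (hA : ∀ v, Even (dg G A v)) (hB : ∀ v, Even (dg G B v))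
    (hAB : ∀ e, e ∉ C → e ∈ A ∨ e ∈ B) :
    ∃ F : Multiset (Finset E), IsCDC G F ∧ C ∈ F := by
  obtain ⟨F, h1, h2, h3⟩ := strong_edges G univ C (subset_univ _) (fun v => (hG v).le) hC.2.1
    (fun f hf => absurd (mem_univ _) hf) (by
    intro e _ he
    obtain ⟨A', a1, a2, a3⟩ := bridge_flow G C hC A hA e
    obtain ⟨B', b1, b2, b3⟩ := bridge_flow G C hC B hB e
    refine ⟨A', B', a1, b1, a2, b2, fun f hf hsb => ?_⟩
    rcases hAB f hf with h | h
    · exact Or.inl (a3 f hf hsb h)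
    · exact Or.inr (b3 f hf hsb h))
  refine ⟨F, ⟨h1, fun e => ?_⟩, h3 C hC (Subset.refl _)⟩
  rw [h2 e, if_pos (mem_univ e)]

end Pool.Agent.H164R2
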