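import Pool.Agent.H164R2.Parity
import Pool.Agent.Helper998.Near.Core

set_option autoImplicit false
set_option linter.unusedSectionVars false

open Finset Matrix

namespace Pool.Agent.H164R2

open Pool.Agent.Helper347.Sab
open Pool.Agent.Helper998.Near (Rch join mem_decomp)

variable {V E : Type} [Fintype V] [DecidableEq V] [Fintype E] [DecidableEq E]
variable {K : Type} [Field K] [Fintype K] [DecidableEq K] [CharP K 2]

/-- boundary of a K-valued function on the edges -/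
def bd (G : MGraph V E) (f : E → K) (v : V) : K := ∑ e, if v ∈ G.ends e then f e else 0

theorem two0 (z : K) : z + z = 0 := CharTwo.add_self_eq_zero z

theorem even_iff_castK (n : ℕ) : Even n ↔ ((n : ℕ) : K) = 0 := by
  rw [CharP.cast_eq_zero_iff K 2, even_iff_two_dvd]

theorem bd_split (G : MGraph V E) (S : Finset E) (f : E → K) (v : V) :
    bd G f v = ∑ e ∈ S.filter (fun e => v ∈ G.ends e), f e +
      ∑ e ∈ (univ \ S).filter (fun e => v ∈ G.ends e), f e := by
  unfold bd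
  rw [← Finset.sum_filter]
  have h : (univ.filter fun e => v ∈ G.ends e) =
      (S.filter fun e => v ∈ G.ends e) ∪ ((univ \ S).filter fun e => v ∈ G.ends e) := by
    ext e
    simp only [mem_filter, mem_univ, true_and, mem_union, mem_sdiff]
    tauto
  rw [h, Finset.sum_union]
  rw [disjoint_left]
  intro e he h'
  rw [mem_filter] at he h'
  exact (mem_sdiff.1 h'.1).2 he.1

theorem count_aux (h s a b d : Prop) [Decidable h] [Decidable s] [Decidable a] [Decidable b]
    [Decidable d] (c3 : s → h) (c4 : d → h) (c5 : a → h) (c6 : b → h)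
    (c7 : h → ¬ s → ¬ (¬ a ∧ ¬ b)) (c2 : s → (d ↔ (¬ a ∧ ¬ b))) :
    (if s then 1 else 0) + ((if d then 1 else 0) +
      ((if (((s ∧ ¬ d) ∨ (d ∧ ¬ s)) ∧ ¬ a) ∨ (a ∧ ¬ ((s ∧ ¬ d) ∨ (d ∧ ¬ s))) then 1 else 0) +
      ((if (((s ∧ ¬ d) ∨ (d ∧ ¬ s)) ∧ ¬ b) ∨ (b ∧ ¬ ((s ∧ ¬ d) ∨ (d ∧ ¬ s))) then 1 else 0) +
      (if (((s ∧ ¬ d) ∨ (d ∧ ¬ s)) ∧ ¬ ((a ∧ ¬ b) ∨ (b ∧ ¬ a))) ∨
        (((a ∧ ¬ b) ∨ (b ∧ ¬ a)) ∧ ¬ ((s ∧ ¬ d) ∨ (d ∧ ¬ s))) then 1 else 0)))) =
      if h then 2 else 0 := by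
  by_cases h1 : h <;> by_cases h2 : s <;> by_cases h3 : a <;> by_cases h4 : b <;>
    by_cases h5 : d <;> simp_all

/-- double covers from a flow whose zeros in H lie on S and meet an even set in S exactly there -/
theorem cover (G : MGraph V E) (H S D : Finset E) (hSH : S ⊆ H) (hDH : D ⊆ H)
    (hH : ∀ v, dg G H v ≤ 3) (hS : ∀ v, dg G S v = 0 ∨ dg G S v = 2) (hD : Ev G D)
    (p q : K →+ ZMod 2) (hpq : ∀ x, p x = 0 → q x = 0 → x = 0)
    (a : E → K) (ha : ∀ v, bd G a v = 0) (haH : ∀ e, e ∉ H → a e = 0)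
    (hnz : ∀ e ∈ H, e ∉ S → a e ≠ 0) (hDS : ∀ e ∈ S, (e ∈ D ↔ a e = 0)) :
    ∃ F : Multiset (Finset E), (∀ X ∈ F, IsCircuit G X) ∧
      (∀ e, F.countP (e ∈ ·) = if e ∈ H then 2 else 0) ∧
      ∀ C, IsCircuit G C → C ⊆ S → C ∈ F := by
  have hev : ∀ r : K →+ ZMod 2, Ev G (univ.filter fun e => r (a e) ≠ 0) := by
    intro r v
    rw [Pool.Agent.Helper998.Near.even_iff_cast]
    have h1 : r (bd G a v) = 0 := by rw [ha v, map_zero]
    unfold bd at h1
    rw [map_sum] at h1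
    unfold dg
    rw [card_filter, Nat.cast_sum, sum_filter]
    refine Eq.trans (sum_congr rfl fun e _ => ?_) h1
    by_cases h2 : v ∈ G.ends e
    · simp only [h2, if_true]
      rcases z2_cases (r (a e)) with h | h
      · simp [h]
      · simp [h]
    · simp [h2]
  obtain ⟨A, hA⟩ : ∃ A : Finset E, A = univ.filter fun e => p (a e) ≠ 0 := ⟨_, rfl⟩
  obtain ⟨B, hB⟩ : ∃ B : Finset E, B = univ.filter fun e => q (a e) ≠ 0 := ⟨_, rfl⟩
  have hAe : Ev G A := by rw [hA]; exact hev p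
  have hBe : Ev G B := by rw [hB]; exact hev q
  have hAB0 : ∀ e, (e ∉ A ∧ e ∉ B) ↔ a e = 0 := by
    intro e
    rw [hA, hB, mem_filter, mem_filter]
    simp only [mem_univ, true_and, not_not, ne_eq]
    constructor
    · rintro ⟨h1, h2⟩
      exact hpq _ h1 h2
    · intro h
      rw [h, map_zero, map_zero]
      exact ⟨rfl, rfl⟩
  have hAH : A ⊆ H := by
    intro e he
    by_contra hcon
    exact ((hAB0 e).2 (haH e hcon)).1 he
  have hBH : B ⊆ H := by
    intro e he
    by_contra hcon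
    exact ((hAB0 e).2 (haH e hcon)).2 he
  have hSe : Ev G S := by
    intro v; rcases hS v with h | h <;> rw [h] <;> decide
  have hdeg : ∀ X : Finset E, X ⊆ H → Ev G X → ∀ v, dg G X v = 0 ∨ dg G X v = 2 := by
    intro X hXH hX v
    have a1 := hX v
    have a2 := dg_mono (G := G) hXH v
    have a3 := hH v
    rw [Nat.even_iff] at a1
    omega
  have hsub : ∀ X Y : Finset E, X ⊆ H → Y ⊆ H → symmDiff X Y ⊆ H := by
    intro X Y hX hY e he
    rw [mem_symmDiff] at he
    rcases he with h | h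
    · exact hX h.1
    · exact hY h.1
  have hSD := ev_symmDiff hSe hD
  have hAB := ev_symmDiff hAe hBe
  have sSD := hsub S D hSH hDH
  obtain ⟨N0, a0, b0⟩ := decompose G _ S le_rfl hS
  obtain ⟨N1, a1, b1⟩ := decompose G _ D le_rfl (hdeg _ hDH hD)
  obtain ⟨N2, a2, b2⟩ := decompose G _ _ le_rfl (hdeg _ (hsub _ _ sSD hAH) (ev_symmDiff hSD hAe))
  obtain ⟨N3, a3, b3⟩ := decompose G _ _ le_rfl (hdeg _ (hsub _ _ sSD hBH) (ev_symmDiff hSD hBe))
  obtain ⟨N4, a4, b4⟩ := decompose G _ _ le_rfl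
    (hdeg _ (hsub _ _ sSD (hsub _ _ hAH hBH)) (ev_symmDiff hSD hAB))
  refine ⟨N0 + (N1 + (N2 + (N3 + N4))), ?_, ?_, ?_⟩
  · intro X hX
    simp only [Multiset.mem_add] at hX
    rcases hX with h | h | h | h | h
    · exact a0 X h
    · exact a1 X h
    · exact a2 X h
    · exact a3 X h
    · exact a4 X h
  · intro e
    rw [Multiset.countP_add, Multiset.countP_add, Multiset.countP_add, Multiset.countP_add,
      b0, b1, b2, b3, b4]
    simp only [mem_symmDiff]
    refine count_aux _ _ _ _ _ (@hSH e) (@hDH e) (@hAH e) (@hBH e) ?_ ?_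
    · exact fun h1 h2 h3 => hnz e h1 h2 ((hAB0 e).1 h3)
    · intro h
      rw [hAB0 e]
      exact hDS e h
  · intro C hC hCS
    rw [Multiset.mem_add]
    exact Or.inl (mem_decomp G S hS N0 a0 b0 C hC hCS)

/-- two S-edges at a vertex of S -/
theorem two_edges (G : MGraph V E) (S : Finset E) (v : V) (hv : dg G S v = 2) :
    ∃ e1 e2, e1 ≠ e2 ∧ S.filter (fun e => v ∈ G.ends e) = {e1, e2} := by
  unfold dg at hv
  obtain ⟨e1, e2, h1, h2⟩ := card_eq_two.1 hv
  exact ⟨e1, e2, h1, h2⟩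

theorem delta_eq (h4 : ∀ x : K, x ^ 4 = x) (x : K) :
    (if x = 0 then (1 : K) else 0) = 1 + x ^ 3 := by
  by_cases h : x = 0
  · rw [if_pos h, h]; ring
  · rw [if_neg h]
    have h1 : x * (x ^ 3 - 1) = 0 := by
      have := h4 x
      linear_combination this
    have h2 : x ^ 3 = 1 := by
      rcases mul_eq_zero.1 h1 with h3 | h3
      · exact absurd h3 h
      · exact sub_eq_zero.1 h3
    rw [h2]
    exact (two0 1).symm

/-- number of zero edges of S at a vertex, as an element of K -/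
theorem zero_count (h4 : ∀ x : K, x ^ 4 = x) (G : MGraph V E) (S : Finset E) (a : E → K)
    (v : V) (ha : bd G a v = 0) (e1 e2 : E) (hne : e1 ≠ e2)
    (h12 : S.filter (fun e => v ∈ G.ends e) = {e1, e2}) (x : K)
    (hx : x = ∑ e ∈ (univ \ S).filter (fun e => v ∈ G.ends e), a e) :
    ((dg G (S.filter fun e => a e = 0) v : ℕ) : K) = x ^ 3 + x * a e1 ^ 2 + x ^ 2 * a e1 := by
  have h1 := bd_split G S a v
  rw [ha, h12, sum_pair hne, ← hx] at h1
  have h2 : (S.filter fun e => a e = 0).filter (fun e => v ∈ G.ends e) =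
      ({e1, e2} : Finset E).filter fun e => a e = 0 := by
    rw [← h12]
    ext e
    simp only [mem_filter]
    tauto
  unfold dg
  rw [h2, card_filter, sum_pair hne]
  push_cast
  rw [delta_eq h4, delta_eq h4]
  have h3 : a e2 = x + a e1 := by
    have := two0 (K := K) x
    have h5 := two0 (K := K) (a e1)
    linear_combination -h1 - this - h5
  rw [h3]
  have h6 : (2 : K) = 0 := by
    have := two0 (K := K) 1
    rwa [one_add_one_eq_two] at this
  linear_combination (1 + a e1 ^ 3 + x ^ 2 * a e1 + x * a e1 ^ 2) * h6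

end Pool.Agent.H164R2
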