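import Pool.Agent.H164R2.Parity

set_option autoImplicit false

open Finset Matrix

namespace Pool.Agent.H164R2

variable {K : Type} [Field K] [Fintype K] [DecidableEq K] [CharP K 2]
variable {B : Type} [Fintype B] [DecidableEq B]

/-- If the sum of the local forms vanishes identically then they have a common zero all of whose
coordinates are nonzero. -/
theorem solve (h4 : ∀ x : K, x ^ 4 = x) (w : K) (hw0 : w ≠ 0) (hw1 : w ≠ 1) (m : B → K)
    (M : Matrix B B K)
    (h : ∀ x : B → K, ∑ b, (x b ^ 3 * m b + x b * (M *ᵥ x) b ^ 2 + x b ^ 2 * (M *ᵥ x) b) = 0) :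
    ∃ x : B → K, (∀ b, x b ≠ 0) ∧
      ∀ b, x b ^ 3 * m b + x b * (M *ᵥ x) b ^ 2 + x b ^ 2 * (M *ᵥ x) b = 0 := by
  classical
  have h2 : ∀ z : K, z + z = 0 := fun z => CharTwo.add_self_eq_zero z
  have two : (2 : K) = 0 := by
    have := h2 1
    rwa [one_add_one_eq_two] at this
  have hdiag : ∀ b, m b + M b b ^ 2 + M b b = 0 := by
    intro b
    have h1 := h (Pi.single b 1)
    rw [Finset.sum_eq_single b] at h1
    · simpa using h1
    · intro c _ hc
      rw [Pi.single_eq_of_ne hc]
      ring
    · intro h3
      exact absurd (Finset.mem_univ _) h3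
  have hherm : ∀ b c, b ≠ c → M c b = (M b c) ^ 2 := by
    intro b c hbc
    have h3 : ∀ x : K, x ^ 3 * m b + x * (M b b * x + M b c) ^ 2 + x ^ 2 * (M b b * x + M b c) +
        (m c + (M c b * x + M c c) ^ 2 + (M c b * x + M c c)) = 0 := by
      intro x
      have h1 := h (Pi.single b x + Pi.single c 1)
      have hmv : ∀ d, (M *ᵥ (Pi.single b x + Pi.single c 1)) d = M d b * x + M d c := by
        intro d
        rw [Matrix.mulVec_add, Pi.add_apply, Matrix.mulVec_single_one]
        rw [Matrix.mulVec_single]
        simp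
      have hb : (Pi.single b x + Pi.single c 1 : B → K) b = x := by
        rw [Pi.add_apply, Pi.single_eq_same, Pi.single_eq_of_ne hbc, add_zero]
      have hc : (Pi.single b x + Pi.single c 1 : B → K) c = 1 := by
        rw [Pi.add_apply, Pi.single_eq_same, Pi.single_eq_of_ne (Ne.symm hbc), zero_add]
      rw [← Finset.add_sum_erase _ _ (Finset.mem_univ b),
        ← Finset.add_sum_erase _ _ (Finset.mem_erase.2 ⟨Ne.symm hbc, Finset.mem_univ c⟩)] at h1
      rw [Finset.sum_eq_zero (s := (univ.erase b).erase c)] at h1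
      · rw [hb, hc, hmv, hmv] at h1
        linear_combination h1
      · intro d hd
        have hdc := Finset.ne_of_mem_erase hd
        have hdb := Finset.ne_of_mem_erase (Finset.mem_of_mem_erase hd)
        have : (Pi.single b x + Pi.single c 1 : B → K) d = 0 := by
          rw [Pi.add_apply, Pi.single_eq_of_ne hdb, Pi.single_eq_of_ne hdc, add_zero]
        rw [this]
        ring
    have h5 : ∀ x : K, (x * (M b c ^ 2 + M c b)) * (1 + x * (M b c ^ 2 + M c b)) = 0 := by
      intro x
      have e1 := h3 x
      have e2 := hdiag b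
      have e3 := hdiag c
      have e4 := h4 (M b c)
      linear_combination e1 - x ^ 3 * e2 - e3 + x ^ 2 * e4 +
        (x ^ 2 * M b c ^ 2 * M c b - x ^ 2 * M b b * M b c - M c b * x * M c c) * two
    by_contra hne
    have hu : M b c ^ 2 + M c b ≠ 0 := by
      intro h6
      apply hne
      have h7 := h2 (M b c ^ 2)
      linear_combination h6 - h7
    have h8 := h5 (w * (M b c ^ 2 + M c b)⁻¹)
    have hwu : w * (M b c ^ 2 + M c b)⁻¹ * (M b c ^ 2 + M c b) = w := by
      rw [mul_assoc, inv_mul_cancel₀ hu, mul_one]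
    rw [hwu] at h8
    rcases mul_eq_zero.1 h8 with h9 | h9
    · exact hw0 h9
    · apply hw1
      have h10 := h2 (1 : K)
      linear_combination h9 - h10
  -- kill the diagonal
  obtain ⟨x, hx0, hx⟩ := parity (K := K) (Matrix.of fun i j => if i = j then 0 else M i j) (by
    intro i j
    simp only [Matrix.of_apply]
    by_cases hij : i = j
    · subst hij
      simp
    · rw [if_neg hij, if_neg (Ne.symm hij)]
      exact hherm i j hij)
  refine ⟨x, hx0, fun b => ?_⟩
  have h6 : (M *ᵥ x) b = ((Matrix.of fun i j => if i = j then 0 else M i j) *ᵥ x) b +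
      M b b * x b := by
    unfold Matrix.mulVec dotProduct
    simp only [Matrix.of_apply]
    rw [← Finset.add_sum_erase _ _ (Finset.mem_univ b),
      ← Finset.add_sum_erase (f := fun j => (if b = j then 0 else M b j) * x j) _
        (Finset.mem_univ b)]
    rw [if_pos rfl, zero_mul, zero_add, add_comm]
    congr 1
    refine Finset.sum_congr rfl fun j hj => ?_
    rw [if_neg (Ne.symm (Finset.ne_of_mem_erase hj))]
  rw [h6]
  have e2 := hdiag b
  have h7 := hx b
  generalize ((Matrix.of fun i j => if i = j then 0 else M i j) *ᵥ x) b = s at h7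
  rcases h7 with h8 | h8
  · rw [h8]
    linear_combination x b ^ 3 * e2
  · rw [h8]
    linear_combination x b ^ 3 * e2 + (x b ^ 3 + M b b * x b ^ 3) * two

end Pool.Agent.H164R2
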