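import Pool.Agent.H164R2.Graph
import Pool.Agent.H164R2.Solve

set_option autoImplicit false
set_option linter.unusedSectionVars false

open Finset Matrix

namespace Pool.Agent.H164R2

open Pool.Agent.Helper347.Sab
open Pool.Agent.Helper998.Near (Rch join mem_decomp)

variable {V E : Type} [Fintype V] [DecidableEq V] [Fintype E] [DecidableEq E]
variable {K : Type} [Field K] [Fintype K] [DecidableEq K] [CharP K 2]

theorem sq_sum {ι : Type} (s : Finset ι) (f : ι → K) : (∑ i ∈ s, f i) ^ 2 = ∑ i ∈ s, f i ^ 2 := by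
  have h := map_sum (frobenius K 2) f s
  simp only [frobenius_def] at h
  exact h

/-- Double covers containing S from nowhere-zero flows on the individual bridges of S. -/
theorem main_flow {B : Type} [Fintype B] [DecidableEq B] (h4 : ∀ x : K, x ^ 4 = x)
    (w : K) (hw0 : w ≠ 0) (hw1 : w ≠ 1)
    (p q : K →+ ZMod 2) (hpq : ∀ x, p x = 0 → q x = 0 → x = 0)
    (G : MGraph V E) (H S : Finset E) (hSH : S ⊆ H)
    (hH : ∀ v, dg G H v ≤ 3) (hS : ∀ v, dg G S v = 0 ∨ dg G S v = 2)
    (cls : V → B) (hcls : ∀ u v, cls u = cls v → Rch G (H \ S) u v)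
    (z : B → E → K) (hz : ∀ b v, bd G (z b) v = 0)
    (hzH : ∀ b e, e ∉ H → z b e = 0)
    (hz0 : ∀ b e, e ∈ H → e ∉ S → ∀ v ∈ G.ends e, cls v ≠ b → z b e = 0)
    (hz1 : ∀ e, e ∈ H → e ∉ S → ∀ v ∈ G.ends e, z (cls v) e ≠ 0) :
    ∃ F : Multiset (Finset E), (∀ X ∈ F, IsCircuit G X) ∧
      (∀ e, F.countP (e ∈ ·) = if e ∈ H then 2 else 0) ∧
      ∀ C, IsCircuit G C → C ⊆ S → C ∈ F := by
  classical
  rcases isEmpty_or_nonempty E with hE | hE
  · refine ⟨0, by simp, fun e => (hE.false e).elim, fun C hC _ => ?_⟩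
    obtain ⟨e, _⟩ := hC.1
    exact (hE.false e).elim
  have hVne : Nonempty V := by
    obtain ⟨u, _, _, _⟩ := exists_ends G hE.some
    exact ⟨u⟩
  -- chosen S-edges
  have hch : ∀ v, ∃ e1 e2, dg G S v = 2 →
      (e1 ≠ e2 ∧ S.filter (fun e => v ∈ G.ends e) = {e1, e2}) := by
    intro v
    by_cases hv : dg G S v = 2
    · obtain ⟨e1, e2, h1, h2⟩ := two_edges G S v hv
      exact ⟨e1, e2, fun _ => ⟨h1, h2⟩⟩
    · exact ⟨hE.some, hE.some, fun h => absurd h hv⟩
  choose s s' hs using hch
  obtain ⟨φ, hφ⟩ : ∃ φ : V → K, ∀ v, φ v = if dg G S v = 2 then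
      ∑ e ∈ (univ \ S).filter (fun e => v ∈ G.ends e), z (cls v) e else 0 := ⟨_, fun _ => rfl⟩
  obtain ⟨a, haDef⟩ : ∃ a : (B → K) → E → K, ∀ x e, a x e = ∑ b, x b * z b e :=
    ⟨_, fun _ _ => rfl⟩
  have ha : ∀ x v, bd G (a x) v = 0 := by
    intro x v
    have h1 : bd G (a x) v = ∑ b, x b * bd G (z b) v := by
      unfold bd
      simp only [mul_sum]
      rw [sum_comm]
      refine sum_congr rfl fun e _ => ?_
      by_cases h : v ∈ G.ends e
      · simp only [h, if_true, haDef]
      · simp [h]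
    rw [h1]
    exact sum_eq_zero fun b _ => by rw [hz, mul_zero]
  have haH : ∀ x e, e ∉ H → a x e = 0 := by
    intro x e he
    rw [haDef]
    exact sum_eq_zero fun b _ => by rw [hzH b e he, mul_zero]
  have haT : ∀ x e, e ∉ S → ∀ v ∈ G.ends e, a x e = x (cls v) * z (cls v) e := by
    intro x e heS v hv
    by_cases he : e ∈ H
    · rw [haDef, sum_eq_single (cls v)]
      · intro b _ hb
        rw [hz0 b e he heS v hv (Ne.symm hb), mul_zero]
      · intro h
        exact absurd (mem_univ _) h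
    · rw [haH x e he, hzH _ e he, mul_zero]
  obtain ⟨Z, hZ⟩ : ∃ Z : (B → K) → Finset E, ∀ x, Z x = S.filter fun e => a x e = 0 :=
    ⟨_, fun _ => rfl⟩
  have hcount : ∀ x v, ((dg G (Z x) v : ℕ) : K) = (x (cls v) * φ v) ^ 3 +
      (x (cls v) * φ v) * a x (s v) ^ 2 + (x (cls v) * φ v) ^ 2 * a x (s v) := by
    intro x v
    rcases hS v with h | h
    · have h1 : dg G (Z x) v = 0 := by
        have := dg_mono (G := G) (X := Z x) (Y := S) (by rw [hZ]; exact filter_subset _ _) v
        omega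
      rw [h1, hφ, if_neg (by omega)]
      push_cast
      ring
    · rw [hZ]
      refine zero_count h4 G S (a x) v (ha x v) (s v) (s' v) (hs v h).1 (hs v h).2 _ ?_
      rw [hφ, if_pos h, mul_sum]
      refine sum_congr rfl fun e he => ?_
      rw [mem_filter, mem_sdiff] at he
      exact (haT x e he.1.2 v he.2).symm
  obtain ⟨m, hm⟩ : ∃ m : B → K, ∀ b, m b = ∑ v, if cls v = b then φ v ^ 3 else 0 :=
    ⟨_, fun _ => rfl⟩
  obtain ⟨M, hM⟩ : ∃ M : Matrix B B K, ∀ b c, M b c =
      ∑ v, if cls v = b then φ v ^ 2 * z c (s v) else 0 := ⟨_, fun _ _ => rfl⟩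
  have hMx : ∀ x b, (M *ᵥ x) b = ∑ v, if cls v = b then φ v ^ 2 * a x (s v) else 0 := by
    intro x b
    unfold Matrix.mulVec dotProduct
    simp only [hM, sum_mul]
    rw [sum_comm]
    refine sum_congr rfl fun v _ => ?_
    by_cases h : cls v = b
    · simp only [h, if_true, haDef, mul_sum]
      refine sum_congr rfl fun c _ => ?_
      ring
    · simp [h]
  have hform : ∀ x b, x b ^ 3 * m b + x b * (M *ᵥ x) b ^ 2 + x b ^ 2 * (M *ᵥ x) b =
      ∑ v, if cls v = b then ((dg G (Z x) v : ℕ) : K) else 0 := by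
    intro x b
    rw [hMx, sq_sum, hm, mul_sum, mul_sum, mul_sum, ← sum_add_distrib, ← sum_add_distrib]
    refine sum_congr rfl fun v _ => ?_
    by_cases h : cls v = b
    · simp only [h, if_true]
      rw [hcount, h]
      have h5 := h4 (φ v)
      linear_combination (x b * a x (s v) ^ 2) * h5
    · simp [h]
  have htot : ∀ x : B → K,
      ∑ b, (x b ^ 3 * m b + x b * (M *ᵥ x) b ^ 2 + x b ^ 2 * (M *ᵥ x) b) = 0 := by
    intro x
    simp only [hform]
    rw [sum_comm]
    have h1 : ∀ v, ∑ b, (if cls v = b then ((dg G (Z x) v : ℕ) : K) else 0) =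
        ((dg G (Z x) v : ℕ) : K) := by
      intro v
      rw [sum_ite_eq, if_pos (mem_univ _)]
    simp only [h1]
    rw [← Nat.cast_sum]
    exact (even_iff_castK _).1 (handshake G (Z x))
  obtain ⟨x, hx0, hx⟩ := solve h4 w hw0 hw1 m M htot
  -- parity on the classes
  have hpar : ∀ b, Even (∑ v, if cls v = b then dg G (Z x) v else 0) := by
    intro b
    rw [even_iff_castK (K := K)]
    have h1 := hx b
    rw [hform] at h1
    push_cast
    exact h1
  have hrep : ∀ b, ∃ r, ∀ v, cls v = b → cls r = b := by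
    intro b
    by_cases h : ∃ v, cls v = b
    · obtain ⟨v, hv⟩ := h
      exact ⟨v, fun _ _ => hv⟩
    · exact ⟨hVne.some, fun v hv => absurd ⟨v, hv⟩ h⟩
  choose rep hrep using hrep
  obtain ⟨J, hJ, hJp⟩ := join G (H \ S) (fun v => ((dg G (Z x) v : ℕ) : ZMod 2))
    (fun v => rep (cls v)) (fun v _ => hcls _ _ (hrep _ v rfl).symm)
  have hJ' : ∀ v, ((dg G J v : ℕ) : ZMod 2) = ((dg G (Z x) v : ℕ) : ZMod 2) := by
    intro v
    rw [hJp v]
    have h1 : ∑ u, (if v = rep (cls u) then ((dg G (Z x) u : ℕ) : ZMod 2) else 0) = 0 := by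
      by_cases hv : v = rep (cls v)
      · have h2 : ∀ u, (if v = rep (cls u) then ((dg G (Z x) u : ℕ) : ZMod 2) else 0) =
            ((if cls u = cls v then dg G (Z x) u else 0 : ℕ) : ZMod 2) := by
          intro u
          by_cases h : cls u = cls v
          · rw [if_pos h, if_pos (by rw [h]; exact hv)]
          · rw [if_neg h, if_neg, Nat.cast_zero]
            intro h3
            apply h
            rw [h3]
            exact (hrep (cls u) u rfl).symm
        simp only [h2]
        rw [← Nat.cast_sum]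
        exact (Pool.Agent.Helper998.Near.even_iff_cast _).1 (hpar (cls v))
      · refine sum_eq_zero fun u _ => ?_
        rw [if_neg]
        intro h3
        apply hv
        have h4 : cls v = cls u := by rw [h3]; exact hrep (cls u) u rfl
        rw [h4]
        exact h3
    rw [h1, add_zero]
  have hZS : Z x ⊆ S := by rw [hZ]; exact filter_subset _ _
  have hdisj : Disjoint (Z x) J := by
    rw [disjoint_left]
    intro e h1 h2
    exact (mem_sdiff.1 (hJ h2)).2 (hZS h1)
  refine cover G H S (Z x ∪ J) hSH ?_ hH hS ?_ p q hpq (a x) (ha x) (haH x) ?_ ?_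
  · intro e he
    rw [mem_union] at he
    rcases he with h | h
    · exact hSH (hZS h)
    · exact (mem_sdiff.1 (hJ h)).1
  · intro v
    have h1 := dg_sdiff (G := G) (X := Z x ∪ J) (Y := Z x) subset_union_left v
    have h3 : (Z x ∪ J) \ Z x = J := by
      rw [union_sdiff_left]
      exact sdiff_eq_self_of_disjoint hdisj.symm
    rw [h3] at h1
    rw [Pool.Agent.Helper998.Near.even_iff_cast, ← h1, Nat.cast_add, hJ' v]
    exact CharTwo.add_self_eq_zero _
  · intro e he heS
    obtain ⟨u, v, _, hends⟩ := exists_ends G e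
    have hu : u ∈ G.ends e := by rw [hends]; simp
    rw [haT x e heS u hu]
    exact mul_ne_zero (hx0 _) (hz1 e he heS u hu)
  · intro e he
    rw [mem_union, hZ, mem_filter]
    constructor
    · rintro (h | h)
      · exact h.2
      · exact absurd he (mem_sdiff.1 (hJ h)).2
    · intro h
      exact Or.inl ⟨he, h⟩

end Pool.Agent.H164R2
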