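import Mathlib

set_option autoImplicit false

open Finset Matrix

namespace Pool.Agent.H164R2

/-!
Hermitian parity lemma over the field with four elements: for a matrix M over F_4 with
M j i = (M i j)^2 there is a vector x with all coordinates nonzero such that every coordinate of
M x is 0 or the corresponding coordinate of x. In fact the number of such vectors is odd.
-/

variable {K : Type} [Field K] [Fintype K] [DecidableEq K] [CharP K 2]
variable {B : Type} [Fintype B] [DecidableEq B]

/-- 0/1 diagonal -/
def dia (t : B → Bool) : B → K := fun i => if t i then 1 else 0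

omit [Fintype K] [DecidableEq K] in
/-- the sum over all 0/1 diagonals of the determinant is 1 in characteristic 2 -/
theorem sum_det (M : Matrix B B K) :
    ∑ t : B → Bool, (M + Matrix.diagonal (dia t)).det = 1 := by
  have h2 : ∀ z : K, z + z = 0 := fun z => CharTwo.add_self_eq_zero z
  simp only [Matrix.det_apply']
  rw [Finset.sum_comm]
  have h1 : ∀ σ : Equiv.Perm B, ∑ t : B → Bool,
      ((Equiv.Perm.sign σ : ℤ) : K) * ∏ i, (M + Matrix.diagonal (dia t) : Matrix B B K) (σ i) i =
      ((Equiv.Perm.sign σ : ℤ) : K) * ∏ i, (if σ i = i then (1 : K) else 0) := by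
    intro σ
    rw [← Finset.mul_sum]
    congr 1
    obtain ⟨f, hf⟩ : ∃ f : B → Bool → K, ∀ i b, f i b =
        M (σ i) i + if σ i = i then (if b then (1 : K) else 0) else 0 := ⟨_, fun _ _ => rfl⟩
    have h3 : ∀ t : B → Bool, ∏ i, (M + Matrix.diagonal (dia t) : Matrix B B K) (σ i) i =
        ∏ i, f i (t i) := by
      intro t
      refine Finset.prod_congr rfl fun i _ => ?_
      rw [Matrix.add_apply, Matrix.diagonal_apply, hf]
      by_cases h : σ i = i
      · simp only [h, if_true, dia]
      · simp only [h, if_false]
    simp only [h3]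
    have h4 := Finset.prod_univ_sum (fun _ : B => (Finset.univ : Finset Bool)) f
    rw [Fintype.piFinset_univ] at h4
    rw [← h4]
    refine Finset.prod_congr rfl fun i _ => ?_
    rw [Fintype.sum_bool, hf, hf]
    by_cases h : σ i = i
    · simp only [h, if_true, Bool.false_eq_true, if_false, add_zero]
      rw [add_right_comm, h2, zero_add]
    · simp only [h, if_false, add_zero]
      exact h2 _
  simp only [h1]
  rw [Finset.sum_eq_single 1]
  · simp
  · intro σ _ hσ
    have : ∃ i, σ i ≠ i := by
      by_contra hcon
      push Not at hcon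
      exact hσ (Equiv.ext hcon)
    obtain ⟨i, hi⟩ := this
    rw [Finset.prod_eq_zero (Finset.mem_univ i) (if_neg hi), mul_zero]
  · intro h
    exact absurd (Finset.mem_univ _) h

/-- the Hermitian parity lemma -/
theorem parity (M : Matrix B B K) (hM : ∀ i j, M j i = (M i j) ^ 2) :
    ∃ x : B → K, (∀ i, x i ≠ 0) ∧ ∀ i, (M *ᵥ x) i = 0 ∨ (M *ᵥ x) i = x i := by
  classical
  have h2 : ∀ z : K, z + z = 0 := fun z => CharTwo.add_self_eq_zero z
  by_contra hcon
  push Not at hcon
  let X : (B → Bool) → Matrix B B K := fun t => M + Matrix.diagonal (dia t)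
  have hX : ∀ t x i, (X t *ᵥ x) i = (M *ᵥ x) i + dia t i * x i := by
    intro t x i
    show ((M + Matrix.diagonal (dia t)) *ᵥ x) i = _
    rw [Matrix.add_mulVec, Pi.add_apply, Matrix.mulVec_diagonal]
  -- determinants are 0 or 1
  have hdet : ∀ t, (X t).det = 0 ∨ (X t).det = 1 := by
    intro t
    have h3 : frobenius K 2 (X t).det = (X t).det := by
      rw [RingHom.map_det]
      have : (frobenius K 2).mapMatrix (X t) = (X t)ᵀ := by
        ext i j
        rw [RingHom.mapMatrix_apply, Matrix.map_apply, frobenius_def, Matrix.transpose_apply]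
        show (M i j + Matrix.diagonal (dia t) i j) ^ 2 = M j i + Matrix.diagonal (dia t) j i
        rw [CharTwo.add_sq, hM i j]
        congr 1
        rw [Matrix.diagonal_apply, Matrix.diagonal_apply]
        by_cases h : i = j
        · subst h
          simp only [if_true, dia]
          split_ifs <;> simp
        · rw [if_neg h, if_neg (Ne.symm h)]
          simp
      rw [this, Matrix.det_transpose]
    rw [frobenius_def] at h3
    have h4 : (X t).det * ((X t).det - 1) = 0 := by ring_nf; rw [h3]; ring
    rcases mul_eq_zero.1 h4 with h | h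
    · exact Or.inl h
    · exact Or.inr (sub_eq_zero.1 h)
  -- double count
  let P : (B → Bool) → (B → K) → ZMod 2 := fun t x => if X t *ᵥ x = 0 then 1 else 0
  have hrow : ∀ t, ∑ x, P t x = if (X t).det = 0 then 0 else 1 := by
    intro t
    by_cases h : (X t).det = 0
    · rw [if_pos h]
      obtain ⟨v, hv, hXv⟩ := Matrix.exists_mulVec_eq_zero_iff.2 h
      refine Finset.sum_involution (fun x _ => x + v) ?_ ?_ ?_ ?_
      · intro x _
        show (if X t *ᵥ x = 0 then (1 : ZMod 2) else 0) + (if X t *ᵥ (x + v) = 0 then 1 else 0) = 0
        rw [Matrix.mulVec_add, hXv, add_zero]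
        exact CharTwo.add_self_eq_zero _
      · intro x _ _ h4
        exact hv (left_eq_add.1 h4.symm)
      · intro x _
        exact Finset.mem_univ _
      · intro x _
        funext i
        simp only [Pi.add_apply]
        rw [add_assoc, h2, add_zero]
    · rw [if_neg h]
      rw [Finset.sum_eq_single 0]
      · show (if X t *ᵥ 0 = 0 then (1 : ZMod 2) else 0) = 1
        rw [Matrix.mulVec_zero, if_pos rfl]
      · intro x _ hx
        show (if X t *ᵥ x = 0 then (1 : ZMod 2) else 0) = 0
        rw [if_neg]
        intro h4
        exact h (Matrix.exists_mulVec_eq_zero_iff.1 ⟨x, hx, h4⟩)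
      · intro h4
        exact absurd (Finset.mem_univ _) h4
  have hcol : ∀ x, ∑ t, P t x = 0 := by
    intro x
    by_cases h : ∃ i, x i = 0
    · obtain ⟨i, hi⟩ := h
      have hinv : ∀ t, P (Function.update t i (!t i)) x = P t x := by
        intro t
        show (if X (Function.update t i (!t i)) *ᵥ x = 0 then (1 : ZMod 2) else 0) =
          if X t *ᵥ x = 0 then 1 else 0
        have : X (Function.update t i (!t i)) *ᵥ x = X t *ᵥ x := by
          funext j
          rw [hX, hX]
          by_cases hj : j = i
          · subst hj
            rw [hi, mul_zero, mul_zero]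
          · unfold dia
            rw [Function.update_of_ne hj]
        rw [this]
      refine Finset.sum_involution (fun t _ => Function.update t i (!t i)) ?_ ?_ ?_ ?_
      · intro t _
        rw [hinv]
        exact CharTwo.add_self_eq_zero _
      · intro t _ _ h4
        have := congrFun h4 i
        rw [Function.update_self] at this
        cases ht : t i <;> rw [ht] at this <;> simp at this
      · intro t _
        exact Finset.mem_univ _
      · intro t _
        funext j
        by_cases hj : j = i
        · subst hj
          simp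
        · simp [Function.update_of_ne hj]
    · push Not at h
      obtain ⟨i, hi1, hi2⟩ := hcon x h
      refine Finset.sum_eq_zero fun t _ => ?_
      show (if X t *ᵥ x = 0 then (1 : ZMod 2) else 0) = 0
      rw [if_neg]
      intro h4
      have h5 := congrFun h4 i
      rw [hX, Pi.zero_apply] at h5
      unfold dia at h5
      split_ifs at h5
      · rw [one_mul] at h5
        apply hi2
        have := h2 (x i)
        exact add_right_cancel (h5.trans this.symm)
      · rw [zero_mul, add_zero] at h5
        exact hi1 h5
  have h6 : ∑ t, ∑ x, P t x = 0 := by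
    rw [Finset.sum_comm]
    exact Finset.sum_eq_zero fun x _ => hcol x
  simp only [hrow] at h6
  have h7 := sum_det M
  have h8 : ∀ t : B → Bool, (M + Matrix.diagonal (dia t)).det =
      ((if (X t).det = 0 then (0 : ℕ) else 1 : ℕ) : K) := by
    intro t
    rcases hdet t with h | h
    · rw [if_pos h, Nat.cast_zero]; exact h
    · rw [if_neg (by rw [h]; exact one_ne_zero), Nat.cast_one]; exact h
  simp only [h8] at h7
  rw [← Nat.cast_sum] at h7
  have h9 : ((∑ t, (if (X t).det = 0 then (0 : ℕ) else 1) : ℕ) : ZMod 2) = 0 := by
    rw [← h6]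
    push_cast
    rfl
  rw [ZMod.natCast_eq_zero_iff] at h9
  obtain ⟨m, hm⟩ := h9
  rw [hm] at h7
  push_cast at h7
  have h10 : (2 : K) = 0 := by
    have := h2 1
    rw [one_add_one_eq_two] at this
    exact this
  rw [h10, zero_mul] at h7
  exact zero_ne_one h7

end Pool.Agent.H164R2
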