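import Pool.Agent.H164R2.Main
import Pool.Agent.Helper998.Near.Flow

set_option autoImplicit false
set_option linter.unusedSectionVars false

open Finset Matrix

namespace Pool.Agent.H164R2

open Pool.Agent.Helper347.Sab
open Pool.Agent.Helper998.Near (Rch join mem_decomp rch_symm)

variable {V E : Type} [Fintype V] [DecidableEq V] [Fintype E] [DecidableEq E]

theorem bd_ind {K : Type} [Field K] [Fintype K] [DecidableEq K] [CharP K 2]
    (G : MGraph V E) (A : Finset E) (c : K) (hA : Ev G A) (v : V) :
    bd G (fun e => if e ∈ A then c else 0) v = 0 := by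
  have h : bd G (fun e => if e ∈ A then c else 0) v = ((dg G A v : ℕ) : K) * c := by
    unfold bd dg
    have h1 : (A.filter fun e => v ∈ G.ends e) = univ.filter fun e => e ∈ A ∧ v ∈ G.ends e := by
      ext e; simp
    rw [h1, card_filter, Nat.cast_sum, sum_mul]
    refine sum_congr rfl fun e _ => ?_
    by_cases h2 : v ∈ G.ends e <;> by_cases h3 : e ∈ A <;> simp [h2, h3]
  rw [h, (even_iff_castK _).1 (hA v), zero_mul]

/-- The main theorem: if every bridge of the 2-regular subgraph S of the subcubic graph H has its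
own nowhere-zero 4-flow after contraction of E(S), then some circuit double cover of H contains
all circuits of S. -/
theorem strong (G : MGraph V E) (H S : Finset E) (hSH : S ⊆ H)
    (hH : ∀ v, dg G H v ≤ 3) (hS : ∀ v, dg G S v = 0 ∨ dg G S v = 2)
    (h : ∀ v : V, ∃ A B : Finset E, Ev G A ∧ Ev G B ∧ A ⊆ H ∧ B ⊆ H ∧
      (∀ f, f ∉ S → (f ∈ A ∨ f ∈ B) → ∀ u ∈ G.ends f, Rch G (H \ S) v u) ∧
      (∀ f ∈ H, f ∉ S → (∀ u ∈ G.ends f, Rch G (H \ S) v u) → f ∈ A ∨ f ∈ B)) :
    ∃ F : Multiset (Finset E), (∀ X ∈ F, IsCircuit G X) ∧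
      (∀ e, F.countP (e ∈ ·) = if e ∈ H then 2 else 0) ∧
      ∀ C, IsCircuit G C → C ⊆ S → C ∈ F := by
  classical
  let _inst : Fintype (GaloisField 2 2) := Fintype.ofFinite _
  have hcard : Fintype.card (GaloisField 2 2) = 4 := by
    rw [← Nat.card_eq_fintype_card, GaloisField.card 2 2 (by norm_num)]
    norm_num
  have h4 : ∀ x : GaloisField 2 2, x ^ 4 = x := by
    intro x
    have := FiniteField.pow_card x
    rwa [hcard] at this
  obtain ⟨w, hw⟩ : ∃ w : GaloisField 2 2, w ∉ ({0, 1} : Finset (GaloisField 2 2)) := by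
    by_contra hcon
    push Not at hcon
    have h1 : (univ : Finset (GaloisField 2 2)) ⊆ {0, 1} := fun x _ => hcon x
    have h2 := card_le_card h1
    rw [card_univ, hcard] at h2
    have h3 : ({0, 1} : Finset (GaloisField 2 2)).card ≤ 2 := card_le_two
    omega
  rw [mem_insert, mem_singleton, not_or] at hw
  obtain ⟨hw0, hw1⟩ := hw
  let bas := Module.finBasisOfFinrankEq (ZMod 2) (GaloisField 2 2)
    (GaloisField.finrank 2 (n := 2) (by norm_num))
  have hpq : ∀ x : GaloisField 2 2, (bas.coord 0).toAddMonoidHom x = 0 →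
      (bas.coord 1).toAddMonoidHom x = 0 → x = 0 := by
    intro x h1 h2
    apply bas.ext_elem
    intro i
    rw [map_zero, Finsupp.zero_apply]
    fin_cases i
    · exact h1
    · exact h2
  -- classes
  let st : Setoid V := ⟨Rch G (H \ S), ⟨fun _ => Relation.ReflTransGen.refl,
    fun hab => rch_symm G _ _ _ hab, fun hab hbc => hab.trans hbc⟩⟩
  have hrep : ∀ b : Quotient st, ∃ v, (Quotient.mk st v) = b := fun b => Quotient.exists_rep b
  choose rep hrep using hrep
  choose A B hA hB hAH hBH h1 h2 using h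
  have hcl : ∀ u v, Quotient.mk st u = Quotient.mk st v ↔ Rch G (H \ S) u v := by
    intro u v
    exact Quotient.eq
  have hone : ∀ f ∈ H, f ∉ S → ∀ u ∈ G.ends f, ∀ v ∈ G.ends f, Rch G (H \ S) u v := by
    intro f hf hfS u hu v hv
    by_cases huv : u = v
    · rw [huv]
    · refine Relation.ReflTransGen.single ⟨f, mem_sdiff.2 ⟨hf, hfS⟩, ?_⟩
      exact (Sym2.mem_and_mem_iff huv).1 ⟨hu, hv⟩
  have hwne : (1 : GaloisField 2 2) + w ≠ 0 := by
    intro h3
    apply hw1
    have h5 := two0 (1 : GaloisField 2 2)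
    linear_combination h3 - h5
  refine main_flow (K := GaloisField 2 2) h4 w hw0 hw1 _ _ hpq G H S hSH hH hS
    (Quotient.mk st) (fun u v huv => (hcl u v).1 huv)
    (fun b e => (if e ∈ A (rep b) then 1 else 0) + (if e ∈ B (rep b) then w else 0)) ?_ ?_ ?_ ?_
  · intro b v
    have h3 := bd_ind (K := GaloisField 2 2) G _ 1 (hA (rep b)) v
    have h5 := bd_ind (K := GaloisField 2 2) G _ w (hB (rep b)) v
    have h7 : bd G (fun e => (if e ∈ A (rep b) then 1 else 0) +
        (if e ∈ B (rep b) then w else 0)) v =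
        bd G (fun e => if e ∈ A (rep b) then (1 : GaloisField 2 2) else 0) v +
        bd G (fun e => if e ∈ B (rep b) then w else 0) v := by
      unfold bd
      rw [← sum_add_distrib]
      refine sum_congr rfl fun e _ => ?_
      by_cases h6 : v ∈ G.ends e <;> simp [h6]
    rw [h7, h3, h5, add_zero]
  · intro b e he
    rw [if_neg fun h3 => he (hAH _ h3), if_neg fun h3 => he (hBH _ h3), add_zero]
  · intro b e he heS v hv hvb
    have h3 : ¬ (e ∈ A (rep b) ∨ e ∈ B (rep b)) := by
      intro h5
      apply hvb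
      rw [← hrep b]
      exact (hcl _ _).2 (rch_symm G _ _ _ (h1 _ e heS h5 v hv))
    rw [not_or] at h3
    rw [if_neg h3.1, if_neg h3.2, add_zero]
  · intro e he heS v hv
    have h3 : Rch G (H \ S) (rep (Quotient.mk st v)) v := (hcl _ _).1 (hrep _)
    have h5 := h2 (rep (Quotient.mk st v)) e he heS
      (fun u hu => h3.trans (hone e he heS v hv u hu))
    by_cases h6 : e ∈ A (rep (Quotient.mk st v)) <;> by_cases h7 : e ∈ B (rep (Quotient.mk st v))
    · simp only [h6, h7, if_true]; exact hwne
    · simp [h6, h7]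
    · simp only [h6, h7, if_true, if_false, zero_add]; exact hw0
    · exact absurd h5 (by tauto)

end Pool.Agent.H164R2
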