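import Pool.Agent.H164R2.Solve

set_option autoImplicit false

open Finset Matrix

namespace Pool.Agent.H164R2

variable {K : Type} [Field K] [Fintype K] [DecidableEq K] [CharP K 2]

/-- nonzero values with sum zero on a set with at least two elements -/
theorem exists_g {ι : Type} [DecidableEq ι] (w : K) (hw0 : w ≠ 0) (hw1 : w ≠ 1) (s : Finset ι)
    (hs : 2 ≤ s.card) : ∃ g : ι → K, (∀ i, g i ≠ 0) ∧ ∑ i ∈ s, g i = 0 := by
  have h2 : ∀ z : K, z + z = 0 := fun z => CharTwo.add_self_eq_zero z
  rcases Nat.even_or_odd s.card with h | h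
  · refine ⟨fun _ => 1, fun _ => one_ne_zero, ?_⟩
    rw [sum_const, nsmul_one]
    obtain ⟨k, hk⟩ := h
    rw [hk, Nat.cast_add]
    exact h2 _
  · obtain ⟨a, ha, b, hb, hab⟩ := one_lt_card.1 (by omega : 1 < s.card)
    refine ⟨fun i => if i = a then w else if i = b then w + 1 else 1, fun i => ?_, ?_⟩
    · by_cases h3 : i = a
      · simp only [h3, if_true]; exact hw0
      · by_cases h4 : i = b
        · simp only [h3, h4, if_true, if_false]
          rw [if_neg (Ne.symm hab)]
          intro h5
          apply hw1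
          have := h2 (1 : K)
          linear_combination h5 - this
        · simp only [h3, h4, if_false]; exact one_ne_zero
    · rw [← add_sum_erase _ _ ha, ← add_sum_erase _ _ (mem_erase.2 ⟨Ne.symm hab, hb⟩)]
      have h5 : ∑ x ∈ (s.erase a).erase b, (if x = a then w else if x = b then w + 1 else 1) =
          ∑ x ∈ (s.erase a).erase b, (1 : K) := by
        refine sum_congr rfl fun x hx => ?_
        rw [mem_erase, mem_erase] at hx
        rw [if_neg hx.2.1, if_neg hx.1]
      rw [h5, sum_const, nsmul_one, if_pos rfl, if_neg (Ne.symm hab), if_pos rfl]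
      have h6 : ((s.erase a).erase b).card + 2 = s.card := by
        rw [card_erase_of_mem (mem_erase.2 ⟨Ne.symm hab, hb⟩), card_erase_of_mem ha]
        omega
      obtain ⟨k, hk⟩ := h
      obtain ⟨n, hn⟩ : ∃ n, n = ((s.erase a).erase b).card := ⟨_, rfl⟩
      rw [← hn] at h6 ⊢
      have h7 : n + 1 = k + k := by omega
      have h8 : (n : K) + 1 = 0 := by
        have := congrArg (fun z : ℕ => (z : K)) h7
        push_cast at this
        rw [this]
        exact h2 _
      have := h2 w
      linear_combination this + h8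

/-- summation around a cycle -/
theorem integrate (m : ℕ) [NeZero m] (d : ZMod m → K) (hd : ∑ i, d i = 0) :
    ∃ a : ZMod m → K, ∀ i, a i = a (i - 1) + d i := by
  have hall : ∑ j ∈ range m, d (j : ZMod m) = 0 := by
    rw [← hd]
    refine sum_nbij' (fun j => (j : ZMod m)) ZMod.val ?_ ?_ ?_ ?_ ?_
    · intro j _; exact mem_univ _
    · intro i _; exact mem_range.2 (ZMod.val_lt i)
    · intro j hj; exact ZMod.val_cast_of_lt (mem_range.1 hj)
    · intro i _; exact ZMod.natCast_zmod_val i
    · intro j _; rfl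
  refine ⟨fun i => ∑ j ∈ range (i.val + 1), d (j : ZMod m), fun i => ?_⟩
  show ∑ j ∈ range (i.val + 1), d (j : ZMod m) = ∑ j ∈ range ((i - 1).val + 1), d (j : ZMod m) + d i
  have hm := NeZero.ne m
  by_cases hi : i = 0
  · have h1 : (i - 1).val + 1 = m := by
      rw [hi, zero_sub]
      obtain ⟨n, rfl⟩ : ∃ n, m = n + 1 := ⟨m - 1, by omega⟩
      rw [ZMod.val_neg_one]
    rw [h1, hall, hi, ZMod.val_zero, zero_add, zero_add, sum_range_one, Nat.cast_zero]
  · have h1 : (i - 1).val + 1 = i.val := by
      have h5 : i.val ≠ 0 := fun h => hi ((ZMod.val_eq_zero i).1 h)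
      have h6 := ZMod.val_lt i
      have : Fact (1 < m) := ⟨by omega⟩
      rw [ZMod.val_sub, ZMod.val_one]
      · omega
      · rw [ZMod.val_one]
        omega
    rw [h1, sum_range_succ, ZMod.natCast_zmod_val]

/-- Four-colour theorem for closed walks: colours in K such that consecutive colours differ and
every vertex sees every colour an even number of times. -/
theorem tour_alg {B : Type} [Fintype B] [DecidableEq B] (h4 : ∀ x : K, x ^ 4 = x) (w : K)
    (hw0 : w ≠ 0) (hw1 : w ≠ 1) (m : ℕ) [NeZero m] (v : ZMod m → B)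
    (hv : ∀ i, 2 ≤ (univ.filter fun j => v j = v i).card) :
    ∃ A : ZMod m → K, (∀ i, A i ≠ A (i - 1)) ∧
      ∀ (κ : K) (b : B), Even ((univ.filter fun i => v i = b ∧ A i = κ).card +
        (univ.filter fun i => v i = b ∧ A (i - 1) = κ).card) := by
  classical
  have h2 : ∀ z : K, z + z = 0 := fun z => CharTwo.add_self_eq_zero z
  have two : (2 : K) = 0 := by
    have := h2 1
    rwa [one_add_one_eq_two] at this
  have hg : ∀ b : B, ∃ g : ZMod m → K, (∀ i, g i ≠ 0) ∧ ∑ i ∈ univ.filter (fun j => v j = b), g i = 0 := by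
    intro b
    by_cases hb : ∃ i, v i = b
    · obtain ⟨i, rfl⟩ := hb
      exact exists_g w hw0 hw1 _ (hv i)
    · refine ⟨fun _ => 1, fun _ => one_ne_zero, ?_⟩
      rw [filter_eq_empty_iff.2 (fun i _ h => hb ⟨i, h⟩), sum_empty]
  choose g' hg'0 hg's using hg
  obtain ⟨g, hg⟩ : ∃ g : ZMod m → K, ∀ i, g i = g' (v i) i := ⟨_, fun _ => rfl⟩
  have hg0 : ∀ i, g i ≠ 0 := fun i => by rw [hg]; exact hg'0 _ _
  have hgs : ∀ b, ∑ i ∈ univ.filter (fun j => v j = b), g i = 0 := by
    intro b
    rw [← hg's b]
    refine sum_congr rfl fun i hi => ?_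
    rw [mem_filter] at hi
    rw [hg, hi.2]
  have ha : ∀ b : B, ∃ a : ZMod m → K, ∀ i, a i = a (i - 1) + if v i = b then g i else 0 := by
    intro b
    apply integrate
    rw [← sum_filter]
    exact hgs b
  choose a ha using ha
  -- the labels
  let AA : (B → K) → ZMod m → K := fun x i => ∑ b, a b i * x b
  have hAA : ∀ x i, AA x i = AA x (i - 1) + x (v i) * g i := by
    intro x i
    show ∑ b, a b i * x b = ∑ b, a b (i - 1) * x b + x (v i) * g i
    have h3 : ∀ b, a b i * x b = a b (i - 1) * x b + if v i = b then x b * g i else 0 := by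
      intro b
      rw [ha b i]
      by_cases h : v i = b
      · rw [if_pos h, if_pos h]; ring
      · rw [if_neg h, if_neg h]; ring
    rw [sum_congr rfl fun b _ => h3 b, sum_add_distrib, sum_ite_eq]
    simp
  let M : Matrix B B K := Matrix.of fun b c => ∑ i ∈ univ.filter (fun j => v j = b), g i ^ 2 * a c (i - 1)
  have hM : ∀ x b, (M *ᵥ x) b = ∑ i ∈ univ.filter (fun j => v j = b), g i ^ 2 * AA x (i - 1) := by
    intro x b
    show ∑ c, (∑ i ∈ univ.filter (fun j => v j = b), g i ^ 2 * a c (i - 1)) * x c = _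
    simp only [sum_mul]
    rw [sum_comm]
    refine sum_congr rfl fun i _ => ?_
    show _ = g i ^ 2 * ∑ c, a c (i - 1) * x c
    rw [mul_sum]
    exact sum_congr rfl fun c _ => by ring
  have hM2 : ∀ x b, (M *ᵥ x) b ^ 2 = ∑ i ∈ univ.filter (fun j => v j = b), g i * AA x (i - 1) ^ 2 := by
    intro x b
    rw [hM]
    have h := map_sum (frobenius K 2) (fun i => g i ^ 2 * AA x (i - 1)) (univ.filter (fun j => v j = b))
    simp only [frobenius_def] at h
    rw [h]
    refine sum_congr rfl fun i _ => ?_
    have := h4 (g i)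
    linear_combination AA x (i - 1) ^ 2 * this
  -- the local form counts cubes
  have hloc : ∀ x b, x b ^ 3 * (∑ i ∈ univ.filter (fun j => v j = b), g i ^ 3) +
      x b * (M *ᵥ x) b ^ 2 + x b ^ 2 * (M *ᵥ x) b =
      ∑ i ∈ univ.filter (fun j => v j = b), (AA x i ^ 3 + AA x (i - 1) ^ 3) := by
    intro x b
    rw [hM2, hM, mul_sum, mul_sum, mul_sum, ← sum_add_distrib, ← sum_add_distrib]
    refine sum_congr rfl fun i hi => ?_
    rw [mem_filter] at hi
    rw [hAA x i, hi.2]
    generalize AA x (i - 1) = z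
    linear_combination -(z ^ 3 + z ^ 2 * x b * g i + z * x b ^ 2 * g i ^ 2) * two
  obtain ⟨x, hx0, hx⟩ := solve h4 w hw0 hw1
    (fun b => ∑ i ∈ univ.filter (fun j => v j = b), g i ^ 3) M (by
    intro x
    rw [sum_congr rfl fun b _ => hloc x b, sum_fiberwise (s := univ) (g := v)
      (f := fun i => AA x i ^ 3 + AA x (i - 1) ^ 3), sum_add_distrib]
    have h3 : ∑ i, AA x (i - 1) ^ 3 = ∑ i, AA x i ^ 3 :=
      Equiv.sum_comp (Equiv.subRight (1 : ZMod m)) (fun i => AA x i ^ 3)
    rw [h3]
    exact h2 _)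
  refine ⟨AA x, fun i h => ?_, fun κ b => ?_⟩
  · have h3 := hAA x i
    rw [h] at h3
    have h5 : x (v i) * g i = 0 := by linear_combination -h3
    exact mul_ne_zero (hx0 _) (hg0 _) h5
  · have hcast : ∀ n : ℕ, Even n ↔ ((n : ℕ) : K) = 0 := by
      intro n
      rw [CharP.cast_eq_zero_iff K 2, even_iff_two_dvd]
    rw [hcast, Nat.cast_add, ← filter_filter, ← filter_filter, card_filter, card_filter]
    push_cast
    rw [← sum_add_distrib]
    have hδ : ∀ z : K, (if z = κ then (1 : K) else 0) = 1 + (z + κ) ^ 3 := by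
      intro z
      by_cases h : z = κ
      · rw [if_pos h, h, h2 κ]; ring
      · rw [if_neg h]
        have hne : z + κ ≠ 0 := by
          intro h3
          apply h
          have := h2 κ
          linear_combination h3 - this
        have h1 : (z + κ) * ((z + κ) ^ 3 - 1) = 0 := by
          have := h4 (z + κ)
          linear_combination this
        rcases mul_eq_zero.1 h1 with h3 | h3
        · exact absurd h3 hne
        · have := h2 (1 : K)
          linear_combination -h3 - this
    have h5 : ∀ i ∈ univ.filter (fun j => v j = b),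
        ((if AA x i = κ then (1 : K) else 0) + (if AA x (i - 1) = κ then (1 : K) else 0)) =
        (AA x i ^ 3 + AA x (i - 1) ^ 3) + κ * (x b * g i) ^ 2 + κ ^ 2 * (x b * g i) := by
      intro i hi
      rw [mem_filter] at hi
      rw [hδ, hδ, hAA x i, hi.2]
      generalize AA x (i - 1) = z
      linear_combination (1 + κ ^ 3 + 3 * z * κ ^ 2 + 3 * z ^ 2 * κ + 3 * z * (x b * g i) * κ +
        (x b * g i) * κ ^ 2 + (x b * g i) ^ 2 * κ) * two
    rw [sum_congr rfl h5, sum_add_distrib, sum_add_distrib, ← hloc x b, hx b, ← mul_sum, ← mul_sum,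
      ← mul_sum, hgs b]
    have h6 : ∑ i ∈ univ.filter (fun j => v j = b), (x b * g i) ^ 2 = 0 := by
      have h := map_sum (frobenius K 2) (fun i => x b * g i) (univ.filter (fun j => v j = b))
      simp only [frobenius_def] at h
      rw [← h, ← mul_sum, hgs b, mul_zero, zero_pow (by norm_num)]
    rw [h6]
    ring

end Pool.Agent.H164R2
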